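import Pool.Agent.MP_807c24_nt.KZ20.Main

namespace Pool.Agent.Results.MP_807c24_nt.KZWeightThree

open Pool.Agent.MP_807c24_nt.KZ20

/-- There is exactly one KZ associator `Φ`, and a rational polynomial in `μ` and the coefficients
of the logarithm, with monomials of weight at most `3` or of weight `4` and odd degree in `μ`,
that vanishes at `(2 π i, Φ)` vanishes at every point of `M(k)` for every `k`. -/
theorem result : ∃ Φ : Ser ℝ, (∀ Φ' : Ser ℝ, IsKZ Φ' ↔ Φ' = Φ) ∧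
    ∀ P : MvPolynomial (Option Word) ℚ,
      (∀ s ∈ P.support, Finsupp.weight wt s ≤ 3 ∨ (Finsupp.weight wt s = 4 ∧ Odd (s none))) →
      MvPolynomial.aeval (point (2 * (Real.pi : ℂ) * Complex.I) fun w => (Φ w : ℂ)) P = 0 →
      ∀ (k : Type) [CommRing k] [Algebra ℚ k] (μ : k) (Ψ : Ser k), IsAssociator μ Ψ →
        MvPolynomial.aeval (point μ Ψ) P = 0 := by
  obtain ⟨Φ, h⟩ := exists_isKZ
  exact ⟨Φ, fun Φ' => ⟨fun h' => isKZ_unique h' h, fun e => e ▸ h⟩,
    fun P hP h0 k _ _ μ Ψ hΨ => main h P hP h0 k μ Ψ hΨ⟩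

end Pool.Agent.Results.MP_807c24_nt.KZWeightThree
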