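import Pool.Agent.MP_807c24_nt.H28.Main

namespace Pool.Agent.Results.MP_807c24_nt.MzvExpLower

/-- The rational span of the multiple zeta values of weight `k` has dimension at least
`2^(k/4) / (5 k^2)`. -/
theorem result (k : ℕ) (hk : 2 ≤ k) :
    (2:ℝ) ^ ((k:ℝ) / 4) ≤ 5 * (k:ℝ) ^ 2 *
      (Module.finrank ℚ (Submodule.span ℚ
        {x : ℝ | ∃ r : ℕ, ∃ s : Fin r → ℕ,
          (∀ i, 1 ≤ s i) ∧ (∀ h : 0 < r, 2 ≤ s ⟨0, h⟩) ∧ (∑ i, s i) = k ∧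
          x = ∑' m : {m : Fin r → ℕ // StrictAnti m ∧ ∀ i, 0 < m i},
                ∏ i, (((m.1 i : ℕ) : ℝ) ^ (s i))⁻¹}) : ℝ) := by
  have h := Pool.Agent.MP_807c24_nt.H28.main_real k hk
  have e : {x : ℝ | ∃ r : ℕ, ∃ s : Fin r → ℕ,
      (∀ i, 1 ≤ s i) ∧ (∀ h : 0 < r, 2 ≤ s ⟨0, h⟩) ∧ (∑ i, s i) = k ∧
      x = ∑' m : {m : Fin r → ℕ // StrictAnti m ∧ ∀ i, 0 < m i},
            ∏ i, (((m.1 i : ℕ) : ℝ) ^ (s i))⁻¹} = {x : ℝ | ∃ r ≤ k, ∃ s : Fin r → ℕ,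
      (∀ i, 1 ≤ s i) ∧ (∀ h : 0 < r, 2 ≤ s ⟨0, h⟩) ∧ (∑ i, s i) = k ∧
      x = Pool.Agent.MP_807c24_nt.H28.mzv r s} := by
    ext x
    constructor
    · rintro ⟨r, s, h1, h2, h3, h4⟩
      refine ⟨r, ?_, s, h1, h2, h3, h4⟩
      have : ∑ _i : Fin r, 1 ≤ ∑ i, s i := Finset.sum_le_sum fun i _ => h1 i
      simpa [h3] using this
    · rintro ⟨r, -, s, h1, h2, h3, h4⟩
      exact ⟨r, s, h1, h2, h3, h4⟩
  rw [e, ← Pool.Agent.MP_807c24_nt.H28.Zw_eq]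
  exact h

end Pool.Agent.Results.MP_807c24_nt.MzvExpLower
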