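import Pool.Agent.MP_807c24_nt.H42.Final

namespace Pool.Agent.Results.MP_807c24_nt.OddZetaCount

theorem result : ∃ s₀ : ℕ, ∀ s : ℕ, s₀ ≤ s →
    (1.4 : ℝ) * √((s : ℝ) * Real.log (Real.log s) / Real.log s) ≤
      (Set.ncard {m : ℕ | Odd m ∧ 3 ≤ m ∧ m ≤ s ∧ ∀ q : ℚ, riemannZeta (m : ℂ) ≠ (q : ℂ)} : ℝ) :=
  Pool.Agent.MP_807c24_nt.H42.final

end Pool.Agent.Results.MP_807c24_nt.OddZetaCount
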